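import Mathlib
import Pool.Agent.SSN.Q2M

/-!
# `cov(M) < ss_c` is consistent

There is a model `N` of ZFC with standard natural numbers in which some family of meagre subsets of the
Baire space with union the whole space is strictly smaller than every family of infinite coinfinite
subsets of `ω` as in the definition of the convergent-subseries number `ss_c`.
-/

open Pool.Agent.Helper79.ZF Pool.Agent.Helper79.Kurepa Pool.Agent.SSN

theorem Pool.Agent.Results.MP_70b496_lc.CovMLess.result :
    ∃ (N : Type) (_ : Membership N N), ZFCModel N ∧ OmegaModel N ∧ CovMLtSsc N :=
  Pool.Agent.SSN.Q2.exists_covM_lt_ssc
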