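import Mathlib
import Pool.Agent.Helper79.SscLower

/-!
# A lower bound for the convergent-subseries number

`ssc` is the least size of a family of infinite coinfinite sets such that every conditionally
convergent series of rationals has a convergent subseries along a member of the family.
In ZFC, `min (covClosedNull, dNum) ≤ ssc`, where `covClosedNull` is the least number of
closed Lebesgue null sets covering the real line and `dNum` is the dominating number.
-/

open Pool.Agent.Helper79.Ssc

theorem Pool.Agent.Results.MP_70b496_lc.LowerBound.result : min covClosedNull dNum ≤ ssc :=
  main_lower
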