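import Pool.Agent.SSN.Idx
import Pool.Agent.SSN.Int

/-!
# `ss_c < d` is consistent with ZFC
-/

namespace Pool.Agent.Results.MP_70b496_lc.ModelSscLtD

open Pool.Agent.SSL Pool.Agent.SSN Pool.Agent.Helper79.ZF Pool.Agent.Helper79.Kurepa

/-- There is an `ω`-model of ZFC in which `ss_c < d`. -/
theorem result : ∃ (N : Type) (_ : Membership N N), ZFCModel N ∧ OmegaModel N ∧ SscLtD N := by
  obtain ⟨W, i1, i2, D, hD, hcof⟩ := exists_idx
  obtain ⟨𝓜, N, mN, zN, j, G, A⟩ := exists_genY (Po D) (Pt W) pn pn_inj (Fc D)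
  exact ⟨N, mN, A.zfc, A.omega, main_int A hD hcof⟩

end Pool.Agent.Results.MP_70b496_lc.ModelSscLtD
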