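import Mathlib
import Pool.Agent.Helper79.SscUpper

/-!
# An upper bound for the convergent-subseries number

For every `h : ℕ → ℕ` with `h k ≥ 1` we have in ZFC `ssc ≤ ploc b h` where
`b k = (2^(k+1)+1)^((2^(k+1)+1)^(h k)+1)` and `ploc b h` is the least number of slaloms `(K, S)`
with infinite domain `K` and `|S k| ≤ h k` such that every function below `b` is eventually captured
on `K` by one of them.
-/

open Pool.Agent.Helper79.Ssc

theorem Pool.Agent.Results.MP_70b496_lc.UpperBound.result (h : ℕ → ℕ) (hh : ∀ k, 1 ≤ h k) :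
    ssc ≤ ploc (fun k => (2 ^ (k + 1) + 1) ^ ((2 ^ (k + 1) + 1) ^ (h k) + 1)) h :=
  Upper.main_upper' h hh
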